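import Pool.Agent.Q148.DChordDefs
import Pool.Agent.Q148.DChordFin

open Q148.DChord

namespace Pool.Agent.Results.MP_eff1f1_co.SimplicialDeletion

/-- There is a `3`-chordal `3`-closure on ten vertices with a simplicial face `E`, not a facet,
such that the deletion is a `3`-closure other than `skeleton 3 10`, every simplicial face of the
deletion is a facet of it, and in particular the deletion is not `3`-chordal. -/
theorem result : ∃ Γ : Family 10, IsDChordal 3 Γ ∧
    ∃ E : Finset (Fin 10), IsSimplicial 3 Γ E ∧ ¬ IsFacet Γ E ∧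
      IsDClosure 3 (deletion Γ E) ∧ deletion Γ E ≠ skeleton 3 10 ∧
      (∀ E' : Finset (Fin 10), IsSimplicial 3 (deletion Γ E) E' → IsFacet (deletion Γ E) E') ∧
      ¬ IsDChordal 3 (deletion Γ E) := by
  refine ⟨cl 3 (fam L1), L1_chordal, um 194, first_bad.1.1, first_bad.1.2, ?_⟩
  rw [first_bad.2]
  exact ⟨cl_isDClosure _ _, susp_not_skeleton, susp_stuck, susp_not_chordal⟩

end Pool.Agent.Results.MP_eff1f1_co.SimplicialDeletion
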